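import Pool.Agent.Helper86.AP.Goals

/-!
# Project AP (MP_bec853_al), packet NG1: counting rotations
-/

set_option autoImplicit false

namespace Pool.Agent.Helper69.AP.NG

open Pool.Agent.Helper35.PP Pool.Agent.Helper35.PX Pool.Agent.Helper86.AP
open scoped ENNReal

theorem tsum_len {β : Type} (z : ℝ≥0∞) (G : Set (List β)) :
    ∑' n : ℕ, W z (G ∩ {w | w.length = n}) = W z G := by
  classical
  have h : ∀ S : Set (List β), W z S = ∑' w, S.indicator (fun w => z ^ w.length) w :=
    fun S => tsum_subtype S (fun w => z ^ w.length)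
  simp only [h]
  rw [ENNReal.tsum_comm]
  refine tsum_congr fun w => ?_
  rw [tsum_eq_single w.length]
  · by_cases hw : w ∈ G
    · rw [Set.indicator_of_mem (s := G) hw, Set.indicator_of_mem]
      exact ⟨hw, rfl⟩
    · rw [Set.indicator_of_notMem (s := G) hw, Set.indicator_of_notMem]
      exact fun h' => hw h'.1
  · intro n hn
    rw [Set.indicator_of_notMem]
    exact fun h' => hn h'.2.symm

theorem card_rot {β : Type} [Finite β] (G : Set (List β)) (n : ℕ) (hn : 1 ≤ n) :
    {c : List β | c.length = n ∧ ∃ c', c' ~r c ∧ c' ∈ G}.ncard ≤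
      (G ∩ {w | w.length = n}).ncard * n := by
  have hfin : (G ∩ {w : List β | w.length = n}).Finite :=
    (List.finite_length_eq β n).subset Set.inter_subset_right
  have hfin2 : ((G ∩ {w : List β | w.length = n}) ×ˢ (Set.Iio n)).Finite :=
    hfin.prod (Set.finite_Iio n)
  have hsub : {c : List β | c.length = n ∧ ∃ c', c' ~r c ∧ c' ∈ G} ⊆
      (fun p : List β × ℕ => p.1.rotate p.2) '' ((G ∩ {w | w.length = n}) ×ˢ (Set.Iio n)) := by
    rintro c ⟨h1, c', ⟨k, hk⟩, h3⟩
    have hl : c'.length = n := by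
      rw [← h1, ← hk, List.length_rotate]
    refine ⟨(c', k % n), ⟨⟨h3, hl⟩, Nat.mod_lt _ hn⟩, ?_⟩
    change c'.rotate (k % n) = c
    rw [← hk, ← hl, List.rotate_mod]
  refine (Set.ncard_le_ncard hsub (hfin2.image _)).trans ?_
  refine (Set.ncard_image_le hfin2).trans ?_
  rw [Set.ncard_prod]
  refine Nat.mul_le_mul_left _ ?_
  rw [← Nat.card_coe_set_eq]
  simp

theorem t : S_NG1 := by
  intro β _ G z hz hW
  have h1 : Filter.Tendsto (fun n : ℕ => W (ENNReal.ofReal z) (G ∩ {w | w.length = n}))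
      Filter.atTop (nhds 0) := by
    refine ENNReal.tendsto_atTop_zero_of_tsum_ne_top ?_
    rw [tsum_len]
    exact hW.ne
  have h2 : Filter.Tendsto (fun n : ℕ => ((G ∩ {w | w.length = n}).ncard : ℝ≥0∞) *
      ENNReal.ofReal z ^ n) Filter.atTop (nhds 0) := by
    refine tendsto_of_tendsto_of_tendsto_of_le_of_le tendsto_const_nhds h1
      (fun n => bot_le) (fun n => ?_)
    have := ncard_mul_pow_le (ENNReal.ofReal z) (G ∩ {w | w.length = n}) n
    rwa [Set.inter_assoc, Set.inter_self] at this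
  have h3 : Filter.Tendsto (fun n : ℕ => ((G ∩ {w | w.length = n}).ncard : ℝ) * z ^ n)
      Filter.atTop (nhds 0) := by
    have h4 := (ENNReal.tendsto_toReal ENNReal.zero_ne_top).comp h2
    rw [ENNReal.toReal_zero] at h4
    refine h4.congr fun n => ?_
    rw [Function.comp_apply, ENNReal.toReal_mul, ENNReal.toReal_pow, ENNReal.toReal_ofReal hz.le,
      ENNReal.toReal_natCast]
  refine tendsto_of_tendsto_of_tendsto_of_le_of_le' tendsto_const_nhds h3 ?_ ?_
  · refine Filter.Eventually.of_forall fun n => ?_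
    positivity
  · filter_upwards [Filter.eventually_ge_atTop 1] with n hn
    have h5 := card_rot G n hn
    have hn0 : (0 : ℝ) < n := by exact_mod_cast hn
    rw [div_le_iff₀ hn0]
    have h6 : (({c : List β | c.length = n ∧ ∃ c', c' ~r c ∧ c' ∈ G}.ncard : ℕ) : ℝ) ≤
        ((G ∩ {w | w.length = n}).ncard : ℝ) * n := by exact_mod_cast h5
    calc (({c : List β | c.length = n ∧ ∃ c', c' ~r c ∧ c' ∈ G}.ncard : ℕ) : ℝ) * z ^ n
        ≤ ((G ∩ {w | w.length = n}).ncard : ℝ) * n * z ^ n :=
          mul_le_mul_of_nonneg_right h6 (by positivity)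
      _ = ((G ∩ {w | w.length = n}).ncard : ℝ) * z ^ n * n := by ring

end Pool.Agent.Helper69.AP.NG
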