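import Pool.Agent.Helper86.AP.Goals

/-!
# Project AP (MP_bec853_al), packet ST: the structure theorem
-/

set_option autoImplicit false

namespace Pool.Agent.Helper69.AP

open Pool.Agent.Helper35.PP Pool.Agent.Helper35.PX Pool.Agent.Helper86.AP

/-- the largest and the second largest value. -/
theorem two_max {m : ℕ} (hm : 1 ≤ m) (f : Fin (m + 1) → ℕ) :
    ∃ j0 j1 : Fin (m + 1), j1 ≠ j0 ∧ (∀ j, f j ≤ f j0) ∧ (∀ j, j ≠ j0 → f j ≤ f j1) := by
  obtain ⟨j0, h0⟩ := Finite.exists_max f
  have hne : (Finset.univ.erase j0).Nonempty := by
    rw [← Finset.card_pos, Finset.card_erase_of_mem (Finset.mem_univ _), Finset.card_univ,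
      Fintype.card_fin]
    omega
  obtain ⟨j1, h1, h2⟩ := Finset.exists_max_image (Finset.univ.erase j0) f hne
  exact ⟨j0, j1, Finset.ne_of_mem_erase h1, h0,
    fun j hj => h2 j (Finset.mem_erase.2 ⟨hj, Finset.mem_univ _⟩)⟩

/-- exchange of the two types of ends. -/
def sw {m : ℕ} (e : Fin (m + 1) × Bool) : Fin (m + 1) × Bool := (e.1, !e.2)

theorem sw_sw {m : ℕ} (e : Fin (m + 1) × Bool) : sw (sw e) = e := by
  simp [sw]

/-- the swapped structure. -/
def swp {β : Type} {M : Set (List β)} {m : ℕ} {a d : List β} (S : PS M m a d) : PS M m d a where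
  P e := S.P (sw e)
  C e := S.C (sw e)
  X e := S.X (sw e)
  pi e := sw (S.pi (sw e))
  invol e := by rw [sw_sw, S.invol, sw_sw]
  nofix e := by
    intro h
    refine S.nofix (sw e) ?_
    rw [← sw_sw (S.pi (sw e)), h]
  dec e := by
    rw [← S.dec (sw e)]
    obtain ⟨j, b⟩ := e
    cases b <;> rfl
  cc e := by rw [sw_sw, S.cc]
  hx e := S.hx _
  nd e := by
    intro h1 h2
    rw [sw_sw]
    refine S.nd (sw e) ?_ h2
    obtain ⟨j, b⟩ := e
    have h3 : (!(S.pi (sw (j, b))).2) = b := h1
    change (S.pi (sw (j, b))).2 = !b
    cases hh : (S.pi (sw (j, b))).2 <;> rw [hh] at h3 <;> rw [← h3] <;> rfl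

theorem nil_mem_Mp {β : Type} {M : Set (List β)} (h : [] ∈ M) : ∀ k, ([] : List β) ∈ Mp M k
  | 0 => rfl
  | k + 1 => ⟨[], h, [], nil_mem_Mp h k, rfl⟩

theorem nil_LE {β : Type} {M : Set (List β)} (h : [] ∈ M) : ([] : List β) ∈ Helper86.AP.LE M := by
  refine ⟨[], nil_mem_Mp h 6, List.suffix_refl _, 1, le_rfl, fun h hh => ?_⟩
  simp at hh

theorem infix_of {β : Type} {a d : List β} {l E m2 : ℕ} {O : ℤ} (h1 : (E : ℤ) + O ≤ m2)
    (h2 : ∀ h : ℕ, l ≤ h → h < E → 0 ≤ (h : ℤ) + O ∧ a[h]? = d[((h : ℤ) + O).toNat]?) :
    (a.take E).drop l <:+: d.take m2 := by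
  by_cases hl : l < E
  · have h3 := (h2 l le_rfl hl).1
    have key : (a.take E).drop l = ((d.take m2).drop ((l : ℤ) + O).toNat).take (E - l) := by
      apply List.ext_getElem?
      intro n
      rw [List.getElem?_drop, List.getElem?_take, List.getElem?_take, List.getElem?_drop,
        List.getElem?_take]
      by_cases hn : n < E - l
      · have e1 : ((l : ℤ) + O).toNat + n < m2 := by omega
        have e2 : (((l + n : ℕ) : ℤ) + O).toNat = ((l : ℤ) + O).toNat + n := by omega
        rw [if_pos (by omega), if_pos hn, if_pos e1, (h2 (l + n) (by omega) (by omega)).2, e2]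
      · rw [if_neg (by omega), if_neg hn]
    rw [key]
    exact (List.take_prefix _ _).isInfix.trans (List.drop_suffix _ _).isInfix
  · have : (a.take E).drop l = [] := by
      apply List.drop_eq_nil_of_le
      rw [List.length_take]
      omega
    rw [this]
    exact List.nil_infix

theorem tST : S_ST := by
  intro β M m a d S hM hm hSIDE hPA hPB hPC hLEL hCOMB
  obtain ⟨j0, j1, hj, hj0, hj1⟩ := two_max hm (fun j => (S.P (j, true)).length)
  obtain ⟨k0, k1, hk, hk0, hk1⟩ := two_max hm (fun j => ((swp S).P (j, true)).length)
  obtain ⟨E, hE1, hE2, hE3, hE4⟩ := hSIDE β M m a d S j0 j1 hM hj hj0 hj1 hPA hPB hPC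
  obtain ⟨F, hF1, hF2, hF3, hF4⟩ := hSIDE β M m d a (swp S) k0 k1 hM hk hk0 hk1 hPA hPB hPC
  have hnil : [] ∈ M := by
    have h1 := S.hx (j0, true)
    refine hM [] [] (S.X (j0, true)) ?_
    simpa using h1
  have la : (S.P (j0, true)).length ≤ a.length := by
    have h1 : a = S.P (j0, true) ++ S.C (j0, true) ++ S.X (j0, true) := S.dec (j0, true)
    have h2 := congrArg List.length h1
    rw [List.length_append, List.length_append] at h2
    omega
  have ld : ((swp S).P (k0, true)).length ≤ d.length := by
    have h1 : d = (swp S).P (k0, true) ++ (swp S).C (k0, true) ++ (swp S).X (k0, true) :=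
      (swp S).dec (k0, true)
    have h2 := congrArg List.length h1
    rw [List.length_append, List.length_append] at h2
    omega
  have tE : (a.take (S.P (j0, true)).length).drop E ∈ Helper86.AP.LE M := by
    rcases hE3 with h | h
    · have : (a.take (S.P (j0, true)).length).drop E = [] := by
        apply List.drop_eq_nil_of_le
        rw [List.length_take]
        omega
      rw [this]
      exact nil_LE hnil
    · exact hLEL β M a E _ hM h hE2 la
  have tF : (d.take ((swp S).P (k0, true)).length).drop F ∈ Helper86.AP.LE M := by
    rcases hF3 with h | h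
    · have : (d.take ((swp S).P (k0, true)).length).drop F = [] := by
        apply List.drop_eq_nil_of_le
        rw [List.length_take]
        omega
      rw [this]
      exact nil_LE hnil
    · exact hLEL β M d F _ hM h hF2 ld
  -- the two types of ends
  have hPs : ∀ j, (swp S).P (j, true) = S.P (j, false) := fun j => rfl
  have hinj : ∀ e f, S.pi e = S.pi f → e = f := fun e f h => by
    rw [← S.invol e, h, S.invol]
  refine ⟨(S.P (j0, true)).length, (S.P (j1, true)).length, ((swp S).P (k0, true)).length,
    ((swp S).P (k1, true)).length, la, ld, hj0, hk0, ⟨j0, j1, hj, rfl, rfl⟩,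
    ⟨k0, k1, hk, rfl, rfl⟩, ?_⟩
  refine hCOMB β M a d _ E _ _ F _ hM hE1 hE2 la hF1 hF2 ld tE tF ?_
  by_cases hcase : S.pi (j0, true) = (k0, false)
  · -- (1)
    right
    have hcase' : S.pi (k0, false) = (j0, true) := by rw [← hcase, S.invol]
    by_cases e1 : E = (S.P (j1, true)).length
    · by_cases e2 : F = ((swp S).P (k1, true)).length
      · exact ⟨0, Or.inl e1, Or.inl e2⟩
      · rcases hF4 with h | ⟨_, O', _, h2, h3⟩
        · exact absurd h e2
        · refine ⟨-O', Or.inl e1, Or.inr ⟨?_, ?_⟩⟩
          · have h4 : (swp S).P ((swp S).pi (k0, true)) = S.P (j0, true) := by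
              change S.P (sw (sw (S.pi (k0, false)))) = _
              rw [sw_sw, hcase']
            rw [h4] at h2
            rw [sub_neg_eq_add]
            exact h2
          · intro h g1 g2
            have := h3 h g1 g2
            rw [sub_neg_eq_add]
            exact this
    · rcases hE4 with h | ⟨_, O, g1, g2, g3⟩
      · exact absurd h e1
      · refine ⟨O, Or.inr ⟨?_, g3⟩, ?_⟩
        · rw [hcase] at g2
          exact g2
        · by_cases e2 : F = ((swp S).P (k1, true)).length
          · exact Or.inl e2
          · rcases hF4 with h | ⟨_, O', q1, q2, q3⟩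
            · exact absurd h e2
            · right
              obtain ⟨r1, r2⟩ := g1 j1 hj
              have hf : S.pi (j1, true) = ((S.pi (j1, true)).1, false) := Prod.ext rfl r1
              have hne : (S.pi (j1, true)).1 ≠ k0 := by
                intro h
                rw [h, ← hcase] at hf
                have := hinj _ _ hf
                exact hj (congrArg Prod.fst this)
              obtain ⟨_, s2⟩ := q1 _ hne
              have h5 : (swp S).P ((swp S).pi ((S.pi (j1, true)).1, true)) = S.P (j1, true) := by
                change S.P (sw (sw (S.pi ((S.pi (j1, true)).1, false)))) = _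
                rw [sw_sw, ← hf, S.invol]
              have h6 : (swp S).P ((S.pi (j1, true)).1, true) = S.P (S.pi (j1, true)) := by
                rw [hPs, ← hf]
              rw [h5, h6] at s2
              have hO : O' = -O := by omega
              have h4 : (swp S).P ((swp S).pi (k0, true)) = S.P (j0, true) := by
                change S.P (sw (sw (S.pi (k0, false)))) = _
                rw [sw_sw, hcase']
              rw [h4, hO] at q2
              refine ⟨by rw [sub_eq_add_neg]; exact q2, ?_⟩
              intro h g1 g2
              have := q3 h g1 g2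
              rw [hO] at this
              rw [sub_eq_add_neg]
              exact this
  · -- (2)
    left
    constructor
    · rcases hE4 with h | ⟨r1, O, _, g2, g3⟩
      · exact Or.inl h
      · right
        have hf : S.pi (j0, true) = ((S.pi (j0, true)).1, false) := Prod.ext rfl r1
        have hne : (S.pi (j0, true)).1 ≠ k0 := by
          intro h
          rw [h] at hf
          exact hcase hf
        have h1 := hk1 _ hne
        have h2 : (swp S).P ((S.pi (j0, true)).1, true) = S.P (S.pi (j0, true)) := by
          rw [hPs, ← hf]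
        have h1' : (S.P (S.pi (j0, true))).length ≤ ((swp S).P (k1, true)).length := by
          rw [← h2]; exact h1
        refine infix_of (O := O) ?_ g3
        exact g2.trans (by exact_mod_cast h1')
    · rcases hF4 with h | ⟨r1, O, _, g2, g3⟩
      · exact Or.inl h
      · right
        have r1' : (!(S.pi (k0, false)).2) = false := r1
        have r2 : (S.pi (k0, false)).2 = true := by
          cases hh : (S.pi (k0, false)).2
          · rw [hh] at r1'; exact absurd r1' (by decide)
          · rfl
        have hf : S.pi (k0, false) = ((S.pi (k0, false)).1, true) := Prod.ext rfl r2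
        have hne : (S.pi (k0, false)).1 ≠ j0 := by
          intro h
          rw [h] at hf
          apply hcase
          rw [← hf, S.invol]
        have h1 := hj1 _ hne
        have h2 : (swp S).P ((swp S).pi (k0, true)) = S.P ((S.pi (k0, false)).1, true) := by
          change S.P (sw (sw (S.pi (k0, false)))) = _
          rw [sw_sw, ← hf]
        refine infix_of (O := O) ?_ g3
        rw [h2] at g2
        exact g2.trans (by exact_mod_cast h1)

end Pool.Agent.Helper69.AP
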